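import Pool.Agent.MP_6a4325_al.H84.Spec3

/-!
Row STAB: stable pairs exist.
-/

set_option autoImplicit false

namespace Pool.Agent.MP_6a4325_al.H81

open Pool.Agent.MP_6a4325_al.H62 Pool.Agent.MP_6a4325_al.H84 Matrix MonoidAlgebra

/-- Linear combinations of the values of a function. -/
noncomputable def ev (F k : Type) [Field F] [Field k] [Algebra F k] {A M : Type} [Group A]
    [AddCommGroup M] [Module k M] (ψ : A → M) : MonoidAlgebra F A →+ M where
  toFun x := x.coeff.sum fun a c => algebraMap F k c • ψ a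
  map_zero' := by simp
  map_add' x y := by
    rw [coeff_add]
    exact Finsupp.sum_add_index' (fun a => by rw [map_zero, zero_smul])
      fun a c d => by rw [map_add, add_smul]

theorem ev_single (F k : Type) [Field F] [Field k] [Algebra F k] {A M : Type} [Group A]
    [AddCommGroup M] [Module k M] (ψ : A → M) (a : A) (c : F) :
    ev F k ψ (single a c) = algebraMap F k c • ψ a := by
  change ((single a c : MonoidAlgebra F A).coeff.sum fun a c => algebraMap F k c • ψ a) = _
  rw [coeff_single]
  exact Finsupp.sum_single_index (by rw [map_zero, zero_smul])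

theorem ev_one (F k : Type) [Field F] [Field k] [Algebra F k] {A M : Type} [Group A]
    [AddCommGroup M] [Module k M] (ψ : A → M) : ev F k ψ 1 = ψ 1 := by
  rw [one_def, ev_single, map_one, one_smul]

/-- The states of the recursion. -/
structure Pr (k G : Type) [Field k] [Group G] (d : ℕ) : Type 1 where
  /-- the subgroup -/
  H : Subgroup G
  /-- the space -/
  M : Type
  [acg : AddCommGroup M]
  [mod : Module k M]
  /-- the representation -/
  ρ : Representation k H M
  fg : H.FG
  irr : Irr ρ
  fd : FiniteDimensional k M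
  le : d ≤ Module.finrank k M
  /-- the vector -/
  v : M
  hv : v ≠ 0

attribute [instance] Pr.acg Pr.mod

variable (F : Type) [Field F] {k G : Type} [Field k] [Algebra F k] [Group G] {d : ℕ}

/-- The annihilator of the vector. -/
def Pr.X (s : Pr k G d) : Set (MonoidAlgebra F G) :=
  {x | ∃ y : MonoidAlgebra F s.H, ev F k (fun a => s.ρ a s.v) y = 0 ∧ x = mapDomain s.H.subtype y}

theorem Pr.one_notMem (s : Pr k G d) : (1 : MonoidAlgebra F G) ∉ Ideal.span (s.X F) := by
  classical
  let ψ : G → s.M := fun g => if h : g ∈ s.H then s.ρ ⟨g, h⟩ s.v else 0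
  have h1 : ∀ (g : G) (c : F) (y : MonoidAlgebra F s.H),
      ev F k ψ (single g c * mapDomain s.H.subtype y) = if h : g ∈ s.H then
        algebraMap F k c • s.ρ ⟨g, h⟩ (ev F k (fun a => s.ρ a s.v) y) else 0 := fun g c y => by
    induction y using MonoidAlgebra.induction_linear with
    | zero => simp
    | add x y hx hy =>
      rw [mapDomain_add, mul_add, map_add, hx, hy]
      split_ifs
      · rw [map_add, map_add, smul_add]
      · rw [add_zero]
    | single a e =>
      rw [mapDomain_single, single_mul_single, ev_single, ev_single]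
      have ha : s.H.subtype a ∈ s.H := a.2
      split_ifs with h
      · rw [map_mul, mul_smul, map_smul, ← Module.End.mul_apply, ← map_mul]
        simp only [ψ, dif_pos (s.H.mul_mem h ha)]
        rfl
      · simp only [ψ, dif_neg fun e => h ((s.H.mul_mem_cancel_right ha).1 e), smul_zero]
  have h2 : ∀ x ∈ Ideal.span (s.X F), ∀ b, ev F k ψ (b * x) = 0 := fun x hx => by
    induction hx using Submodule.span_induction with
    | mem x hx =>
      obtain ⟨y, hy, rfl⟩ := hx
      intro b
      induction b using MonoidAlgebra.induction_linear with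
      | zero => simp
      | add x y hx hy => rw [add_mul, map_add, hx, hy, add_zero]
      | single g c =>
        rw [h1, hy]
        simp
    | zero => simp
    | add x y _ _ hx hy => exact fun b => by rw [mul_add, map_add, hx, hy, add_zero]
    | smul a x _ hx => exact fun b => by rw [smul_eq_mul, ← mul_assoc, hx]
  intro h
  have h3 := h2 1 h 1
  rw [mul_one, ev_one] at h3
  simp only [ψ, dif_pos s.H.one_mem] at h3
  exact s.hv (by rw [← h3]; exact (LinearMap.congr_fun s.ρ.map_one s.v).symm)

theorem Pr.step (hfd : ∀ L : Subgroup G, L.FG → FD k L) (s : Pr k G d) (h : ¬ Stab s.H s.ρ) :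
    ∃ s' : Pr k G d, Module.finrank k s.M < Module.finrank k s'.M ∧ s.X F ⊆ s'.X F := by
  unfold Stab at h
  push Not at h
  obtain ⟨L, hL, fg, U, _, _, σ, φ, irr, h0, he, hs⟩ := h
  have := hfd L fg U σ irr
  have hi : LinearMap.ker φ = ⊥ := (s.irr.2 _ fun g u hu => by
    rw [LinearMap.mem_ker] at hu ⊢
    rw [he, hu, map_zero]).resolve_right fun e => h0 (LinearMap.ker_eq_top.1 e)
  have hi' := LinearMap.ker_eq_bot.1 hi
  have hlt : Module.finrank k s.M < Module.finrank k U := by
    rw [← LinearMap.finrank_range_of_inj hi']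
    exact Submodule.finrank_lt fun e => hs (LinearMap.range_eq_top.1 e)
  refine ⟨⟨L, U, σ, fg, irr, this, s.le.trans hlt.le, φ s.v,
    fun e => s.hv (hi' (e.trans φ.map_zero.symm))⟩, hlt, ?_⟩
  rintro _ ⟨y, hy, rfl⟩
  have h1 : ∀ y : MonoidAlgebra F s.H, ev F k (fun a => σ a (φ s.v))
      (mapDomain (Subgroup.inclusion hL) y) = φ (ev F k (fun a => s.ρ a s.v) y) ∧
      mapDomain s.H.subtype y = mapDomain L.subtype (mapDomain (Subgroup.inclusion hL) y) :=
    fun y => by
      induction y using MonoidAlgebra.induction_linear with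
      | zero => simp
      | add x y hx hy =>
        simp only [mapDomain_add, map_add, hx.1, hy.1, hx.2, hy.2, and_self]
      | single a e =>
        rw [mapDomain_single, mapDomain_single, mapDomain_single, ev_single, ev_single, map_smul,
          he]
        exact ⟨rfl, rfl⟩
  exact ⟨mapDomain (Subgroup.inclusion hL) y, (h1 y).1.trans ((congrArg φ hy).trans φ.map_zero), (h1 y).2⟩

theorem stab : SFdl → SIdem → SStab := by
  intro hF hI p _ G _ hL hW H₀ fg M₀ _ _ ρ₀ irr
  have hfd : ∀ L : Subgroup G, L.FG → FD (Kp p) L := fun L h => hF p L (hL L h)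
  by_contra hn
  have := irr.1
  obtain ⟨v₀, hv₀⟩ := exists_ne (0 : M₀)
  choose nx h1 h2 using fun s : Pr (Kp p) G (Module.finrank (Kp p) M₀) =>
    s.step (ZMod p) hfd fun h => hn ⟨s.H, s.M, _, _, s.ρ, s.fg, s.irr, s.fd, s.le, h⟩
  let f : ℕ → Pr (Kp p) G (Module.finrank (Kp p) M₀) := fun j =>
    nx^[j] ⟨H₀, M₀, ρ₀, fg, irr, hfd H₀ fg M₀ ρ₀ irr, le_rfl, v₀, hv₀⟩
  have hf : ∀ j, f (j + 1) = nx (f j) := fun j => Function.iterate_succ_apply' _ _ _
  have h3 : ∀ j, j ≤ Module.finrank (Kp p) (f j).M := fun j => by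
    induction j with
    | zero => exact Nat.zero_le _
    | succ j ih =>
      rw [hf]
      exact ih.trans_lt (h1 _)
  have h4 : Monotone fun j => Ideal.span ((f j).X (ZMod p)) :=
    monotone_nat_of_le_succ fun j => Ideal.span_mono (hf j ▸ h2 _)
  obtain ⟨K, _, _, _, n, τ, v, hv, h5⟩ := hW 1
    (Submodule.comap (LinearMap.proj 0) (⨆ j, Ideal.span ((f j).X (ZMod p)))) fun e => by
      have h6 : (1 : MonoidAlgebra (ZMod p) G) ∈ ⨆ j, Ideal.span ((f j).X (ZMod p)) :=
        Submodule.eq_top_iff'.1 e fun _ => 1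
      obtain ⟨j, hj⟩ := (Submodule.mem_iSup_of_directed _ h4.directed_le).1 h6
      exact (f j).one_notMem (ZMod p) hj
  obtain ⟨x, x1, x2⟩ := hI p _ _ (f (n ^ 2 + 2)).ρ n
    ((Group.fg_iff_subgroup_fg _).2 (f _).fg) (f _).irr (h3 _)
  have h7 := h5 (fun _ => mapDomain (f (n ^ 2 + 2)).H.subtype (1 - x))
    (Submodule.mem_iSup_of_mem (n ^ 2 + 2) (Ideal.subset_span ⟨1 - x, by
      rw [map_sub, ev_one, map_one, sub_eq_zero]
      exact (x1 _).symm, rfl⟩))
  rw [Fin.sum_univ_one, ← H87.act_map, map_sub, map_one, x2, sub_zero, one_mulVec] at h7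
  exact hv (funext fun i => by rw [Subsingleton.elim i 0]; exact h7)

end Pool.Agent.MP_6a4325_al.H81
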